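import Pool.Agent.Helper99.SZ.Stmts

/-! A prime of the closure over a special prime of a cubic field. -/

set_option autoImplicit false

namespace Pool.Helper99.SZ

open NumberField

namespace CU4

theorem ext' {L : Type} [Field L] [NumberField L] {x y : 𝓞 L}
    (h : algebraMap (𝓞 L) L x = algebraMap (𝓞 L) L y) : x = y := RingOfIntegers.ext h

/-- a prime over a prime, along an arbitrary embedding -/
theorem exists_over {K L : Type} [Field K] [NumberField K] [Field L] [NumberField L]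
    (f : K →+* L) (P : Ideal (𝓞 K)) (hP : P.IsPrime) :
    ∃ Q : Ideal (𝓞 L), Q.IsPrime ∧ Q.comap (RingOfIntegers.mapRingHom f) = P := by
  let _ : Algebra (𝓞 K) (𝓞 L) := (RingOfIntegers.mapRingHom f).toAlgebra
  have hint : Algebra.IsIntegral (𝓞 K) (𝓞 L) := by
    refine ⟨fun x => ?_⟩
    obtain ⟨g, hg, hgx⟩ : IsIntegral ℤ x := RingOfIntegers.isIntegral x
    refine ⟨g.map (Int.castRingHom (𝓞 K)), hg.map _, ?_⟩
    rw [Polynomial.eval₂_map]
    rw [← hgx]
    congr 1
    exact Subsingleton.elim _ _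
  have hker : RingHom.ker (algebraMap (𝓞 K) (𝓞 L)) ≤ P := by
    intro x hx
    rw [RingHom.mem_ker] at hx
    have h1 : f (algebraMap (𝓞 K) K x) = 0 := congrArg (algebraMap (𝓞 L) L) hx
    have h2 : x = 0 := ext' (by rw [(map_eq_zero f).1 h1, map_zero])
    rw [h2]
    exact P.zero_mem
  exact Ideal.exists_ideal_over_prime_of_isIntegral_of_isDomain P hker

/-- push forward of `Dv` in exponent `0` -/
theorem dv_push {K L : Type} [Field K] [NumberField K] [Field L] [NumberField L]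
    (f : K →+* L) (Q : Ideal (𝓞 L)) (x : K)
    (h : Dv (Q.comap (RingOfIntegers.mapRingHom f)) 0 x) : Dv Q 0 (f x) := by
  obtain ⟨a, b, hb, -, hab⟩ := h
  refine ⟨RingOfIntegers.mapRingHom f a, RingOfIntegers.mapRingHom f b, fun h => hb ?_, ?_, ?_⟩
  · exact h
  · rw [pow_zero, Ideal.one_eq_top]; trivial
  · rw [RingOfIntegers.mapRingHom_apply, RingOfIntegers.mapRingHom_apply, ← map_mul, hab]

/-- two different primes -/
theorem coprime_mem {R : Type} [CommRing R] {Q : Ideal R} (hQ : Q.IsPrime) {x y : ℤ}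
    (h : IsCoprime x y) (hx : (x : R) ∈ Q) (hy : (y : R) ∈ Q) : False := by
  obtain ⟨a, b, hab⟩ := h
  apply hQ.ne_top
  rw [Ideal.eq_top_iff_one]
  have : (1 : R) = (a : R) * x + (b : R) * y := by
    have := congrArg (fun z : ℤ => (z : R)) hab
    push_cast at this
    exact this.symm
  rw [this]
  exact Q.add_mem (Q.mul_mem_left _ hx) (Q.mul_mem_left _ hy)

end CU4

open CU4 in
theorem st_CU4 (h1 : ST_CU1) (h2 : ST_VAL) (h3 : ST_VALS) : ST_CU4 := by
  intro K _ _ β a b c κ m p P 𝔞 hCD L _ _ e he j0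
  obtain ⟨-, hc1⟩ := h1
  obtain ⟨-, -, -, -, -, hroots⟩ := hc1 K β a b c κ hCD.cf
  obtain ⟨hdist, hsum, hdiff, -⟩ := hroots L e he
  obtain ⟨Q, hQp, hQc⟩ := exists_over (e 0) (P j0) (hCD.pr j0).1
  have hovr : ∀ x : 𝓞 K, RingOfIntegers.mapRingHom (e 0) x ∈ Q ↔ x ∈ P j0 := by
    intro x
    rw [← hQc, Ideal.mem_comap]
  have hpQ : ((p j0 : ℕ) : 𝓞 L) ∈ Q := by
    have := (hovr ((p j0 : ℕ) : 𝓞 K)).2 (hCD.pm j0)
    rwa [map_natCast] at this
  have hQ0 : Q ≠ ⊥ := by
    intro h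
    rw [h, Ideal.mem_bot] at hpQ
    exact (hCD.pp j0).ne_zero (by exact_mod_cast hpQ)
  -- the roots
  have hβi : IsIntegral ℤ β := by
    refine ⟨Polynomial.X ^ 3 + Polynomial.C a * Polynomial.X ^ 2 + Polynomial.C b * Polynomial.X +
      Polynomial.C c, ?_, ?_⟩
    · monicity!
    · simp only [Polynomial.eval₂_add, Polynomial.eval₂_mul, Polynomial.eval₂_pow,
        Polynomial.eval₂_X, Polynomial.eval₂_C]
      have := hCD.cf.eq
      simpa using this
  let B : 𝓞 K := ⟨β, hβi⟩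
  have hB : (B : K) = β := rfl
  let t : Fin 3 → 𝓞 L := fun i => RingOfIntegers.mapRingHom (e i) B
  have ht : ∀ i, algebraMap (𝓞 L) L (t i) = e i β := fun i => rfl
  have hE : ∀ i j k : Fin 3, i ≠ j → i ≠ k → j ≠ k →
      (t j - t k) ^ 2 = RingOfIntegers.mapRingHom (e i) κ := by
    intro i j k hij hik hjk
    apply ext'
    rw [map_pow, map_sub, ht, ht]
    exact hdiff i j k hij hik hjk
  have h12 : t 1 - t 2 ∈ Q := by
    have h := (hovr κ).2 (hCD.km j0)
    rw [← hE 0 1 2 (by decide) (by decide) (by decide)] at h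
    exact hQp.mem_of_pow_mem 2 h
  have hI : (((a ^ 2 - 3 * b : ℤ)) : 𝓞 L) = (t 0 - t 1) ^ 2 + (t 0 - t 2) * (t 1 - t 2) := by
    apply ext'
    have e1 := hdiff 0 1 2 (by decide) (by decide) (by decide)
    have e2 : e 0 (κ : K) = (a : L) ^ 2 - 4 * b - 2 * a * e 0 β - 3 * (e 0 β) ^ 2 := by
      rw [hCD.cf.kap]
      simp only [map_sub, map_mul, map_pow, map_intCast, map_ofNat]
    rw [e2] at e1
    have e3 : (a : L) = -(e 0 β + e 1 β + e 2 β) := by rw [hsum]; ring
    have e4 : (4 : L) * (b : L) = 4 * (e 0 β * e 1 β + e 0 β * e 2 β + e 1 β * e 2 β) := by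
      rw [e3] at e1
      linear_combination e1
    have e5 : (b : L) = e 0 β * e 1 β + e 0 β * e 2 β + e 1 β * e 2 β :=
      mul_left_cancel₀ (by norm_num) e4
    rw [map_intCast, map_add, map_mul, map_pow, map_sub, map_sub, map_sub, ht, ht, ht]
    push_cast
    rw [e3, e5]
    ring
  have h01 : t 0 - t 1 ∉ Q := by
    intro h
    have h5 : (((a ^ 2 - 3 * b : ℤ)) : 𝓞 L) ∈ Q := by
      rw [hI]
      exact Q.add_mem (Ideal.pow_mem_of_mem Q h 2 (by norm_num)) (Q.mul_mem_left _ h12)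
    have h6 : ¬ IsCoprime (a ^ 2 - 3 * b) ((p j0 : ℕ) : ℤ) := fun hc =>
      coprime_mem hQp hc h5 (by push_cast; exact hpQ)
    apply h6
    rw [isCoprime_comm, Prime.coprime_iff_not_dvd (Nat.prime_iff_prime_int.1 (hCD.pp j0))]
    exact hCD.pI j0
  have h02 : t 0 - t 2 ∉ Q := by
    intro h
    apply h01
    have := Q.sub_mem h h12
    have h' : t 0 - t 2 - (t 1 - t 2) = t 0 - t 1 := by ring
    rwa [h'] at this
  have hκ : ∀ i : Fin 3, i ≠ 0 → RingOfIntegers.mapRingHom (e i) κ ∉ Q := by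
    intro i hi h
    have hi' : i = 1 ∨ i = 2 := by
      clear h
      revert hi
      revert i
      decide
    rcases hi' with rfl | rfl
    · rw [← hE 1 0 2 (by decide) (by decide) (by decide)] at h
      exact h02 (hQp.mem_of_pow_mem 2 h)
    · rw [← hE 2 0 1 (by decide) (by decide) (by decide)] at h
      exact h01 (hQp.mem_of_pow_mem 2 h)
  refine ⟨Q, hQp, hQ0, hpQ, hovr, ?_, ?_⟩
  · -- `T`
    set v := (dis a b c).natAbs.factorization (p j0) with hv
    have hκP : κ ∈ P j0 ^ v := by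
      have : Ideal.span {κ} ≤ P j0 ^ v := by
        rw [hCD.fac]
        refine Ideal.mul_le_right.trans ?_
        have h6 := Finset.mul_prod_erase Finset.univ
          (fun j => P j ^ (dis a b c).natAbs.factorization (p j)) (Finset.mem_univ j0)
        rw [← h6]
        exact Ideal.mul_le_left
      exact this (Ideal.mem_span_singleton_self κ)
    have hκQ : (t 1 - t 2) ^ 2 ∈ Q ^ v := by
      rw [hE 0 1 2 (by decide) (by decide) (by decide)]
      have h5 : RingOfIntegers.mapRingHom (e 0) κ ∈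
          (P j0 ^ v).map (RingOfIntegers.mapRingHom (e 0)) := Ideal.mem_map_of_mem _ hκP
      rw [Ideal.map_pow] at h5
      refine Ideal.pow_right_mono ?_ v h5
      rw [Ideal.map_le_iff_le_comap, hQc]
    have hne : (t 1 - t 2 : 𝓞 L) ≠ 0 := by
      intro h
      have h5 := congrArg (algebraMap (𝓞 L) L) h
      rw [map_sub, ht, ht, map_zero] at h5
      exact hdist 1 2 (by decide) (sub_eq_zero.1 h5)
    have hneL : e 1 β - e 2 β ≠ 0 := sub_ne_zero.2 (hdist 1 2 (by decide))
    obtain ⟨w, hw⟩ := h2 L Q hQp hQ0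
    let y : Lˣ := Units.mk0 (e 1 β - e 2 β) hneL
    have hyv : (y : L) = e 1 β - e 2 β := rfl
    have hy2 : (v : ℤ) ≤ w (y * y) := by
      rw [← hw.dv]
      refine ⟨(t 1 - t 2) ^ 2, 1, fun h => hQp.ne_top ((Ideal.eq_top_iff_one _).2 h), hκQ, ?_⟩
      rw [Units.val_mul, hyv]
      show (e 1 β - e 2 β) * (e 1 β - e 2 β) * algebraMap (𝓞 L) L 1 =
        algebraMap (𝓞 L) L ((t 1 - t 2) ^ 2)
      rw [map_one, map_pow, map_sub, ht, ht]
      ring
    rw [hw.mul] at hy2
    have hy1 : (((v + 1) / 2 : ℕ) : ℤ) ≤ w y := by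
      push_cast
      omega
    rw [← hw.dv] at hy1
    obtain ⟨A, D, hD, hA, hAD⟩ := hy1
    have hAD' : (e 1 β - e 2 β) * algebraMap (𝓞 L) L D = algebraMap (𝓞 L) L A := hAD
    refine ⟨-(A * (2 * t 0 - t 1 - t 2)), D * (t 0 - t 2) ^ 2, fun h => ?_, ?_, ?_⟩
    · rcases hQp.mem_or_mem h with h | h
      · exact hD h
      · exact h02 (hQp.mem_of_pow_mem 2 h)
    · exact neg_mem (Ideal.mul_mem_right _ _ hA)
    · have e1 := hdiff 1 0 2 (by decide) (by decide) (by decide)
      have e2 := hdiff 2 0 1 (by decide) (by decide) (by decide)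
      have hn : e 0 β - e 2 β ≠ 0 := sub_ne_zero.2 (hdist 0 2 (by decide))
      rw [← e1, ← e2]
      show ((e 0 β - e 1 β) ^ 2 / (e 0 β - e 2 β) ^ 2 - 1) *
        algebraMap (𝓞 L) L (D * (t 0 - t 2) ^ 2) =
        algebraMap (𝓞 L) L (-(A * (2 * t 0 - t 1 - t 2)))
      rw [map_mul, map_neg, map_mul, map_pow, map_sub, map_sub, map_sub, map_mul, ht, ht, ht,
        ← hAD', map_ofNat]
      field_simp
      ring
  · -- `un`
    intro u x hux i hi
    have hQip : (Q.comap (RingOfIntegers.mapRingHom (e i))).IsPrime := Ideal.comap_isPrime _ _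
    have hQi0 : Q.comap (RingOfIntegers.mapRingHom (e i)) ≠ ⊥ := by
      intro h
      have h5 : ((p j0 : ℕ) : 𝓞 K) ∈ Q.comap (RingOfIntegers.mapRingHom (e i)) := by
        rw [Ideal.mem_comap, map_natCast]
        exact hpQ
      rw [h, Ideal.mem_bot] at h5
      exact (hCD.pp j0).ne_zero (by exact_mod_cast h5)
    obtain ⟨w, hw⟩ := h2 K _ hQip hQi0
    have hwu : w u = 0 := by
      refine (h3 K m P hCD.inj hCD.pr x u hux _ hQip hQi0 w hw).2 fun j hj => ?_
      have h5 := hCD.km j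
      rw [hj, Ideal.mem_comap] at h5
      exact hκ i hi h5
    have hw1 : w 1 = 0 := by
      have := hw.mul 1 1
      rw [one_mul] at this
      omega
    have hwi : w u⁻¹ = 0 := by
      have := hw.mul u u⁻¹
      rw [mul_inv_cancel, hw1, hwu] at this
      omega
    constructor
    · refine dv_push (e i) Q _ ?_
      rw [hw.dv, hwu]
      simp
    · have : (e i (u : K))⁻¹ = e i ((u⁻¹ : Kˣ) : K) := by
        rw [Units.val_inv_eq_inv_val, map_inv₀]
      rw [this]
      refine dv_push (e i) Q _ ?_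
      rw [hw.dv, hwi]
      simp

end Pool.Helper99.SZ
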