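import Pool.Agent.Helper99.SZ.Stmts

/-! Coordinates on a subspace. -/

set_option autoImplicit false

namespace Pool.Helper99.SZ

theorem st_JEX : ST_JEX := by
  classical
  intro n v V hV
  let N : Fin n → Module.Dual ℚ V := fun i => (LinearMap.proj i).comp V.subtype
  have hN : ∀ (i : Fin n) (x : V), N i x = (x : Fin n → ℚ) i := fun i x => rfl
  obtain ⟨κ, a, ha, hspan, hli⟩ := exists_linearIndependent' ℚ N
  have : Finite κ := Finite.of_injective a ha
  have : Fintype κ := Fintype.ofFinite κ
  have hinj : ∀ x : V, (∀ k, N (a k) x = 0) → x = 0 := by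
    intro x hx
    have h1 : ∀ f ∈ Submodule.span ℚ (Set.range (N ∘ a)), f x = 0 := by
      intro f hf
      refine Submodule.span_induction (p := fun f _ => f x = 0) ?_ ?_ ?_ ?_ hf
      · rintro _ ⟨k, rfl⟩
        exact hx k
      · rfl
      · intro f g _ _ hf hg
        rw [LinearMap.add_apply, hf, hg, add_zero]
      · intro c f _ hf
        rw [LinearMap.smul_apply, hf, smul_zero]
    apply Subtype.ext
    funext i
    rw [← hN]
    exact h1 _ (by rw [hspan]; exact Submodule.subset_span ⟨i, rfl⟩)
  have hc1 : Fintype.card κ ≤ v := by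
    have h := hli.fintype_card_le_finrank
    rw [Subspace.dual_finrank_eq, hV] at h
    exact h
  have hc2 : v ≤ Fintype.card κ := by
    let Φ : V →ₗ[ℚ] (κ → ℚ) := LinearMap.pi fun k => N (a k)
    have hΦ : Function.Injective Φ := by
      rw [injective_iff_map_eq_zero]
      intro x hx
      exact hinj x fun k => congrFun hx k
    have h := LinearMap.finrank_le_finrank_of_injective hΦ
    rw [Module.finrank_fintype_fun_eq_card, hV] at h
    exact h
  let ε : Fin v ≃ κ := (Fintype.equivFinOfCardEq (le_antisymm hc1 hc2)).symm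
  refine ⟨fun i => a (ε i), ha.comp ε.injective, fun x hx h0 => ?_⟩
  have h := hinj ⟨x, hx⟩ fun k => by
    have := h0 (ε.symm k)
    simp only [Equiv.apply_symm_apply] at this
    exact this
  exact congrArg Subtype.val h

/-- dual vectors -/
theorem jex_dual {n v : ℕ} (V : Submodule ℚ (Fin n → ℚ)) (hV : Module.finrank ℚ V = v)
    (J : Fin v → Fin n) (hJ : ∀ x ∈ V, (∀ i, x (J i) = 0) → x = 0) (i : Fin v) :
    ∃ b ∈ V, b (J i) = 1 ∧ ∀ k, k ≠ i → b (J k) = 0 := by
  classical
  let Φ : V →ₗ[ℚ] (Fin v → ℚ) := LinearMap.pi fun k => (LinearMap.proj (J k)).comp V.subtype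
  have hΦ : Function.Injective Φ := by
    rw [injective_iff_map_eq_zero]
    intro x hx
    apply Subtype.ext
    exact hJ x x.2 fun k => congrFun hx k
  have hs : Function.Surjective Φ := by
    rw [← LinearMap.injective_iff_surjective_of_finrank_eq_finrank]
    · exact hΦ
    · rw [hV, Module.finrank_fin_fun]
  obtain ⟨b, hb⟩ := hs (Pi.single i 1)
  refine ⟨b, b.2, ?_, fun k hk => ?_⟩
  · have := congrFun hb i
    rw [Pi.single_eq_same] at this
    exact this
  · have := congrFun hb k
    rw [Pi.single_eq_of_ne hk] at this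
    exact this

end Pool.Helper99.SZ
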