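import Pool.Agent.Helper60.SZ.JEX
import Pool.Agent.Helper17.Trs2.Bases
import Pool.Agent.Helper64.Trs.IndA

/-! Primes coming out of the zero estimate. -/

set_option autoImplicit false

namespace Pool.Helper99.SZ

open MvPolynomial

namespace ZVQ

theorem tv_last (v : ℕ) : tv v (Fin.last v) = true := by simp [tv]

theorem tv_castSucc {v : ℕ} (i : Fin v) : tv v (Fin.castSucc i) = false := by
  simp [tv, Fin.castSucc_ne_last]

/-- the complex vector of a rational vector -/
noncomputable def cv {v : ℕ} (u : Fin v → ℚ) : Fin (v + 1) → ℂ :=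
  fun i => if h : (i : ℕ) < v then ((u ⟨i, h⟩ : ℚ) : ℂ) else 0

theorem cv_castSucc {v : ℕ} (u : Fin v → ℚ) (i : Fin v) : cv u (Fin.castSucc i) = (u i : ℂ) := by
  simp [cv]

theorem cv_last {v : ℕ} (u : Fin v → ℚ) : cv u (Fin.last v) = 0 := by simp [cv]

theorem vc_last {v : ℕ} (z : Fin v → ℤ) (l : ℂ) : vc z l (Fin.last v) = l := by simp [vc]

theorem vc_castSucc {v : ℕ} (z : Fin v → ℤ) (l : ℂ) (i : Fin v) :
    vc z l (Fin.castSucc i) = ((z i : ℤ) : ℂ) := by simp [vc]

theorem add_vc {v : ℕ} (z : Fin v → ℤ) (l : ℂ) :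
    Trs.addPart (tv v) (vc z l) = cv (fun i => ((z i : ℤ) : ℚ)) := by
  funext i
  refine Fin.lastCases ?_ (fun i => ?_) i
  · rw [Trs.addPart, if_pos (tv_last v), cv_last]
  · rw [Trs.addPart, if_neg (by rw [tv_castSucc]; simp), cv_castSucc, vc_castSucc]
    push_cast
    rfl

theorem mem_Dp (hJT : Trs.S_JorT) {v : ℕ} {q : Ideal (Trs.Rg (v + 1))}
    {H : Set ((Fin v → ℤ) × ℂ)} (hH : ∀ h ∈ H, Trs.Stb (tv v) q (vc h.1 h.2)) {u : Fin v → ℚ}
    (hu : u ∈ Submodule.span ℚ {u : Fin v → ℚ | ∃ h ∈ H, u = fun i => ((h.1 i : ℤ) : ℚ)}) :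
    Trs.Dst (tv v) (cv u) q := by
  rw [← Trs2.mem_Dp]
  refine Submodule.span_induction (p := fun u _ => cv u ∈ Trs2.Dp (tv v) q) ?_ ?_ ?_ ?_ hu
  · rintro _ ⟨h, hh, rfl⟩
    rw [← add_vc h.1 h.2]
    exact (hJT _ _ q _ (hH h hh)).1
  · have : cv (0 : Fin v → ℚ) = 0 := by
      funext i
      refine Fin.lastCases ?_ (fun i => ?_) i
      · rw [cv_last]; rfl
      · rw [cv_castSucc]; simp
    rw [this]
    exact Submodule.zero_mem _
  · intro a b _ _ ha hb
    have : cv (a + b) = cv a + cv b := by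
      funext i
      refine Fin.lastCases ?_ (fun i => ?_) i
      · rw [Pi.add_apply, cv_last, cv_last, cv_last, add_zero]
      · rw [Pi.add_apply, cv_castSucc, cv_castSucc, cv_castSucc, Pi.add_apply]
        push_cast
        rfl
    rw [this]
    exact Submodule.add_mem _ ha hb
  · intro c a _ ha
    have : cv (c • a) = (c : ℂ) • cv a := by
      funext i
      refine Fin.lastCases ?_ (fun i => ?_) i
      · rw [Pi.smul_apply, cv_last, cv_last, smul_zero]
      · rw [Pi.smul_apply, cv_castSucc, cv_castSucc, Pi.smul_apply, smul_eq_mul, smul_eq_mul]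
        push_cast
        rfl
    rw [this]
    exact Submodule.smul_mem _ _ ha

theorem ind_empty {n : ℕ} {tor : Fin n → Bool} {q : Ideal (Trs.Rg n)}
    (hq : q ≤ RingHom.ker (Trs.ev tor 0)) : Trs.Ind q ∅ := by
  intro f hf hfq
  rw [Finset.subset_empty, MvPolynomial.vars_eq_empty_iff_eq_C] at hf
  have h := hq hfq
  rw [RingHom.mem_ker, hf] at h
  have h2 : (Trs.ev tor 0) (C (coeff 0 f)) = coeff 0 f := by
    rw [Trs.ev, aeval_C]; rfl
  rw [h2] at h
  rw [hf, h, C_0]

/-- adding additive coordinates -/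
theorem ind_add (hDel : Trs.S_Del) {v w : ℕ} {q : Ideal (Trs.Rg (v + 1))} (J : Fin w → Fin v)
    (b : Fin w → Fin v → ℚ) (hb : ∀ i, Trs.Dst (tv v) (cv (b i)) q) (hb1 : ∀ i, b i (J i) = 1)
    (hb0 : ∀ i k, k ≠ i → b i (J k) = 0) (I0 : Finset (Fin (v + 1)))
    (hI0 : ∀ j ∈ I0, j = Fin.last v) (hq : Trs.Ind q I0) (S : Finset (Fin w)) :
    Trs.Ind q (S.image (fun i => Fin.castSucc (J i)) ∪ I0) := by
  classical
  induction S using Finset.induction_on with
  | empty => rw [Finset.image_empty, Finset.empty_union]; exact hq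
  | insert i S hi ih =>
    rw [Finset.image_insert, Finset.insert_union]
    refine hDel _ (tv v) q (cv (b i)) (hb i) (fun j hj => ?_) (Fin.castSucc (J i))
      (tv_castSucc _) (by rw [cv_castSucc, hb1]; simp) _ (fun j hj => ?_) ih
    · revert hj
      refine Fin.lastCases ?_ (fun j => ?_) j
      · intro _; exact cv_last _
      · intro h
        rw [tv_castSucc] at h
        exact Bool.noConfusion h
    · rcases Finset.mem_union.1 hj with h | h
      · obtain ⟨k, hk, rfl⟩ := Finset.mem_image.1 h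
        rw [cv_castSucc, hb0 i k (by rintro rfl; exact hi hk)]
        simp
      · rw [hI0 j h, cv_last]

end ZVQ

open ZVQ in
theorem st_ZVQ : ST_ZVQ := by
  classical
  intro v K Lc hK hL q hqp hq0 hqk H hH w hw
  set V : Submodule ℚ (Fin v → ℚ) := Submodule.span ℚ {u : Fin v → ℚ | ∃ h ∈ H,
      u = fun i => ((h.1 i : ℤ) : ℚ)} with hV
  have hwv : w ≤ v := by
    rw [hw]
    have := Submodule.finrank_le V
    rwa [Module.finrank_fin_fun] at this
  obtain ⟨J, hJi, hJ⟩ := st_JEX v w V hw.symm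
  have hdual := jex_dual V hw.symm J hJ
  choose b hbV hb1 hb0 using hdual
  have hbD : ∀ i, Trs.Dst (tv v) (cv (b i)) q := fun i => mem_Dp Trs.H79.jorT hH (hbV i)
  refine ⟨hwv, ?_, ?_⟩
  · intro hwv' h hh
    subst hwv'
    have hlast : ¬ Trs.Ind q {Fin.last w} := by
      intro hl
      have h1 := ind_add Trs.del J b hbD hb1 hb0 {Fin.last w}
        (fun j hj => Finset.mem_singleton.1 hj) hl Finset.univ
      have hJs : Function.Surjective J := Finite.surjective_of_injective hJi
      apply hq0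
      rw [eq_bot_iff]
      intro f hf
      rw [Ideal.mem_bot]
      refine h1 f (fun i _ => ?_) hf
      refine Fin.lastCases ?_ (fun i => ?_) i
      · exact Finset.mem_union_right _ (Finset.mem_singleton_self _)
      · obtain ⟨k, rfl⟩ := hJs i
        exact Finset.mem_union_left _ (Finset.mem_image.2 ⟨k, Finset.mem_univ _, rfl⟩)
    have h2 := Trs.alg1 _ (tv w) q hqp hqk (Fin.last w) hlast
    rw [if_pos (tv_last w)] at h2
    have h3 := (Trs.H79.jorT _ (tv w) q _ (hH h hh)).2
    have h4 := hqk ((h3 _).1 h2)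
    rw [RingHom.mem_ker] at h4
    have h5 : (Trs.ev (tv w) 0) (Trs.tr (tv w) (Trs.mulPart (tv w) (vc h.1 h.2))
        (X (Fin.last w) - C 1)) = Complex.exp h.2 - 1 := by
      rw [map_sub, Trs.tr, aeval_X, aeval_C, if_pos (tv_last w), Trs.mulPart, if_pos (tv_last w),
        vc_last, map_sub, map_mul, Trs.ev, aeval_X, aeval_C, if_pos (tv_last w)]
      simp
    rw [h5] at h4
    exact sub_eq_zero.1 h4
  · have h1 := ind_add Trs.del J b hbD hb1 hb0 ∅ (fun j hj => absurd hj (Finset.notMem_empty j))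
      (ind_empty hqk) Finset.univ
    rw [Finset.union_empty] at h1
    set J0 : Finset (Fin (v + 1)) := Finset.univ.image (fun i => Fin.castSucc (J i)) with hJ0
    obtain ⟨I, hI, hImax⟩ := Finset.exists_max_image
      (Finset.univ.filter fun I : Finset (Fin (v + 1)) => J0 ⊆ I ∧ Trs.Ind q I) Finset.card
      ⟨J0, Finset.mem_filter.2 ⟨Finset.mem_univ _, Finset.Subset.refl _, h1⟩⟩
    obtain ⟨-, hJI, hII⟩ := Finset.mem_filter.1 hI
    refine ⟨I, ⟨hII, fun i hi hcon => ?_⟩, ?_⟩
    · have h2 := hImax (insert i I) (Finset.mem_filter.2 ⟨Finset.mem_univ _,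
        hJI.trans (Finset.subset_insert _ _), hcon⟩)
      rw [Finset.card_insert_of_notMem hi] at h2
      omega
    · have hle : ∏ i ∈ Iᶜ, (if i = Fin.last v then Lc else K) ≤
          ∏ i ∈ J0ᶜ, (if i = Fin.last v then Lc else K) := by
        refine Finset.prod_le_prod_of_subset_of_one_le' (Finset.compl_subset_compl.2 hJI) ?_
        intro i _ _
        split_ifs
        · exact hL
        · exact hK
      refine hle.trans (le_of_eq ?_)
      have hlastJ : Fin.last v ∈ J0ᶜ := by
        rw [Finset.mem_compl, hJ0, Finset.mem_image]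
        rintro ⟨k, -, hk⟩
        exact Fin.castSucc_ne_last _ hk
      rw [← Finset.mul_prod_erase _ _ hlastJ, if_pos rfl, mul_comm]
      congr 1
      rw [Finset.prod_congr rfl (g := fun _ => K) (fun i hi => if_neg (Finset.ne_of_mem_erase hi)),
        Finset.prod_const, Finset.card_erase_of_mem hlastJ, Finset.card_compl, hJ0,
        Finset.card_image_of_injective _
          (f := fun i => Fin.castSucc (J i)) ((Fin.castSucc_injective v).comp hJi),
        Fintype.card_fin, Finset.card_univ, Fintype.card_fin]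
      congr 1
      omega

end Pool.Helper99.SZ
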